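import Pool.Agent.Helper294.FG.Filtered

set_option autoImplicit false

namespace Pool.Agent.Results.MP_b7cb8e_al.FilteredRetracts

universe u v

/-- The `k`-span of the monomials `x₁ ⋯ x_r` with `w x₁ + ⋯ + w x_r ≤ n`. -/
def WeightAtMost (k : Type u) [Field k] {X : Type v} (w : X → ℕ) (n : ℕ) :
    Submodule k (FreeAlgebra k X) :=
  Submodule.span k {f | ∃ l : List X, (l.map w).sum ≤ n ∧ f = (l.map (FreeAlgebra.ι k)).prod}

/-- `R` is a free algebra: some family of elements of `R` generates it, and the natural map from
the free algebra on the family is an isomorphism. -/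
def IsFreeAlgebra (k : Type u) [Field k] {X : Type v} (R : Subalgebra k (FreeAlgebra k X)) : Prop :=
  ∃ (I : Type (max u v)) (y : I → R), Function.Bijective (FreeAlgebra.lift k y)

open Pool.Agent.Helper294.FG

variable {k : Type u} [Field k] {X : Type v}

lemma Le_of_mem {w : X → ℕ} {n : ℕ} {f : FreeAlgebra k X} (h : f ∈ WeightAtMost k w n) : Le w n f := by
  have hl : ∀ l : List X, Hm w (l.map w).sum ((l.map (FreeAlgebra.ι k)).prod) := by
    intro l
    induction l with
    | nil => exact Hm.one
    | cons x l ih =>
      rw [List.map_cons, List.sum_cons, List.map_cons, List.prod_cons]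
      exact (Hm.ι x).mul ih
  induction h using Submodule.span_induction with
  | mem f hf =>
    obtain ⟨l, hle, rfl⟩ := hf
    exact (hl l).le.mono hle
  | zero => exact Le.zero n
  | add a b _ _ ha hb => exact ha.add hb
  | smul c a _ ha =>
    rw [Le, map_smul]
    exact (Polynomial.natDegree_smul_le c _).trans ha

/-- Let `F` be the free algebra over a field `k` on a set `X` whose elements have positive integer
weights `w`, and let `π` be an idempotent endomorphism of `F` such that, for each generator `x`,
`π x` is a combination of monomials of weight at most `w x`.  Then the retract `π(F)` is a free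
algebra. -/
theorem result : ∀ (k : Type u) [Field k] (X : Type v) (w : X → ℕ), (∀ x, 0 < w x) →
    ∀ π : FreeAlgebra k X →ₐ[k] FreeAlgebra k X, (∀ f, π (π f) = π f) →
      (∀ x : X, π (FreeAlgebra.ι k x) ∈ WeightAtMost k w (w x)) →
      IsFreeAlgebra k π.range := by
  intro k _ X w hw π hπ hx
  have hx' : ∀ x, Le w (w x) (π (FreeAlgebra.ι k x)) := fun x => Le_of_mem (hx x)
  obtain ⟨y, hy⟩ := free_of_leading hw π.range {lead w w π}
    (by
      rintro _ rfl x
      exact lead_Hm π x)
    (by
      rintro _ ⟨r, rfl⟩ n hr
      rintro _ rfl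
      have h := (lead_Le π hx' hr).2
      rw [show π.toRingHom r = π r from rfl, hπ] at h
      exact h.symm)
    (by
      rintro n s ⟨h1, h2⟩
      have h := lead_Le π hx' h2.le
      refine ⟨π s, ⟨s, rfl⟩, h.1, ?_⟩
      rw [h.2, coeff_Hm h2, if_pos rfl]
      exact h1 _ rfl)
  exact ⟨_, y, hy⟩

end Pool.Agent.Results.MP_b7cb8e_al.FilteredRetracts
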